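import Mathlib

namespace Pool.Agent.Results.MP_de3f1f_gt.NotUnique

open Set MeasureTheory Metric Module
open scoped RealInnerProductSpace Pointwise

abbrev E := EuclideanSpace ℝ (Fin 3)

/-- vertices of a regular simplex centred at the origin -/
def Regular (q : Fin 4 → E) : Prop := ∑ i, q i = 0 ∧ ∃ e > 0, ∀ i j, i ≠ j → dist (q i) (q j) = e

/-- `ρ` is the radius of the smallest closed ball containing `Z` -/
def Circumradius (Z : Set E) (ρ : ℝ) : Prop := IsLeast {r | ∃ c, Z ⊆ closedBall c r} ρ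

lemma cpt {n : ℕ} (v : Fin n → E) : IsCompact (parallelepiped v) :=
  isCompact_Icc.image (by fun_prop)

lemma mem_face (x : Fin 4 → E) (i : Fin 4) (p : E) : p ∈ parallelepiped (x ∘ i.succAbove) ↔
    ∃ t ∈ Icc (0 : Fin 4 → ℝ) 1, t i = 0 ∧ p = ∑ k, t k • x k := by
  rw [mem_parallelepiped_iff]
  constructor
  · rintro ⟨t, ht, rfl⟩
    refine ⟨i.insertNth 0 t, ⟨fun k => ?_, fun k => ?_⟩, by simp, by simp [Fin.sum_univ_succAbove _ i]⟩
    · induction k using i.succAboveCases <;> simp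
      exact ht.1 _
    · induction k using i.succAboveCases <;> simp
      exact ht.2 _
  · rintro ⟨t, ht, h, rfl⟩
    exact ⟨t ∘ i.succAbove, ⟨fun k => ht.1 _, fun k => ht.2 _⟩,
      by simp [Fin.sum_univ_succAbove _ i, h]⟩

lemma vol (x : Fin 4 → E) (z : Fin 4 → ℝ) (hz : ∀ i, 0 < z i) (h0 : ∑ i, z i • x i = 0)
    (hk : ∀ t : Fin 4 → ℝ, ∑ i, t i • x i = 0 → ∃ c : ℝ, ∀ i, t i = c * z i) :
    volume (parallelepiped x) = ∑ i : Fin 4, ENNReal.ofReal
      |(EuclideanSpace.basisFun (Fin 3) ℝ).toBasis.det (x ∘ i.succAbove)| := by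
  have h1 : parallelepiped x = ⋃ i : Fin 4, parallelepiped (x ∘ i.succAbove) := by
    ext p
    simp only [mem_iUnion, mem_face, mem_parallelepiped_iff x]
    refine ⟨?_, fun ⟨_, t, ht, _, h⟩ => ⟨t, ht, h⟩⟩
    rintro ⟨t, ht, rfl⟩
    obtain ⟨i, hi⟩ := Finite.exists_min fun k => t k / z k
    refine ⟨i, fun k => t k - t i / z i * z k, ⟨fun k => ?_, fun k => ?_⟩, by simp [(hz i).ne'], ?_⟩
    · exact sub_nonneg.2 ((le_div_iff₀ (hz k)).1 (hi k))
    · exact (sub_le_self _ (mul_nonneg (div_nonneg (ht.1 i) (hz i).le) (hz k).le)).trans (ht.2 k)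
    · simp [sub_smul, mul_smul, ← Finset.smul_sum, h0]
  rw [h1, measure_iUnion₀ (fun i j hij => ?_) fun i => (cpt _).nullMeasurableSet, tsum_fintype]
  · simp only [← Measure.addHaar_parallelepiped, OrthonormalBasis.addHaar_eq_volume]
  obtain ⟨j, rfl⟩ := Fin.exists_succAbove_eq hij.symm
  refine measure_mono_null (t := Submodule.span ℝ (range (x ∘ i.succAbove ∘ j.succAbove))) ?_
    (Measure.addHaar_submodule _ _ fun h => ?_)
  · rintro p ⟨h2, h3⟩
    obtain ⟨t, ht, e1, rfl⟩ := (mem_face _ _ _).1 h2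
    obtain ⟨t', ht', e2, e3⟩ := (mem_face _ _ _).1 h3
    obtain ⟨c, hc⟩ := hk (t - t') (by simp [sub_smul, e3])
    have h4 := hc i
    have h5 := hc (i.succAbove j)
    simp only [Pi.sub_apply, e1, e2] at h4 h5
    have h6 : 0 ≤ t' i := ht'.1 i
    have h7 : 0 ≤ t (i.succAbove j) := ht.1 _
    have h8 : t (i.succAbove j) = 0 := by
      have : c ≤ 0 := by nlinarith [hz i]
      nlinarith [hz (i.succAbove j)]
    rw [Fin.sum_univ_succAbove _ i, Fin.sum_univ_succAbove _ j, e1, h8, zero_smul, zero_smul,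
      zero_add, zero_add]
    exact Submodule.sum_mem _ fun k _ => Submodule.smul_mem _ _ (Submodule.subset_span ⟨k, rfl⟩)
  · have := finrank_range_le_card (R := ℝ) (x ∘ i.succAbove ∘ j.succAbove)
    rw [Set.finrank, h] at this
    simp at this

noncomputable def X (s t : ℝ) : Fin 4 → E :=
  ![!₂[s * (t + 1), s, s], !₂[s * (t + 1), -s, -s], !₂[s * (t - 1), s, -s], !₂[s * (t - 1), -s, s]]

variable {s t : ℝ}

lemma volX (hs : 0 < s) (h0 : 0 ≤ t) (h1 : t ≤ 1 / 3) :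
    volume (parallelepiped (X s t)) = .ofReal (16 * s ^ 3) := by
  rw [vol _ ![1 - t, 1 - t, 1 + t, 1 + t] (fun i => by fin_cases i <;> simp <;> linarith)]
  · have a : 0 ≤ 4 * s ^ 3 * (1 - t) := mul_nonneg (by positivity) (by linarith)
    have b : 0 ≤ 4 * s ^ 3 * (1 + t) := by positivity
    rw [← ENNReal.ofReal_sum_of_nonneg fun _ _ => abs_nonneg _]
    congr 1
    simp only [Fin.sum_univ_four, Basis.det_apply, Matrix.det_fin_three, Basis.toMatrix_apply]
    simp [X, Fin.succAbove]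
    rw [abs_eq_neg_self.2, abs_eq_self.2, abs_eq_neg_self.2, abs_eq_self.2] <;> nlinarith
  · ext k
    fin_cases k <;> simp [X, Fin.sum_univ_four] <;> ring
  · intro u hu
    have e0 := congrArg (· 0) hu
    have e1 := congrArg (· 1) hu
    have e2 := congrArg (· 2) hu
    simp [X, Fin.sum_univ_four] at e0 e1 e2
    have f1 : u 1 = u 0 := mul_left_cancel₀ hs.ne' (by linarith)
    have f2 : u 3 = u 2 := mul_left_cancel₀ hs.ne' (by linarith)
    have f3 : u 0 * (1 + t) = u 2 * (1 - t) := mul_left_cancel₀ hs.ne' (by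
      rw [f1, f2] at e0
      linarith)
    have : 1 - t ≠ 0 := by linarith
    refine ⟨u 0 / (1 - t), fun i => ?_⟩
    fin_cases i <;> simp [f1, f2] <;> field_simp <;> linarith

lemma memX (u : Fin 4 → ℝ) (hu : ∀ i, 0 ≤ u i ∧ u i ≤ 1) (x : Fin 4 → E) :
    ∑ i, u i • x i ∈ parallelepiped x :=
  (mem_parallelepiped_iff _ _).2 ⟨u, ⟨fun i => (hu i).1, fun i => (hu i).2⟩, rfl⟩

lemma far (hs : 0 < s) : ∃ p ∈ parallelepiped (X s t), ∃ p' ∈ parallelepiped (X s t),
    dist p p' = 4 * s := by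
  refine ⟨_, memX ![1, 0, 1, 0] (fun i => by fin_cases i <;> simp) _, _,
    memX ![0, 1, 0, 1] (fun i => by fin_cases i <;> simp) _, ?_⟩
  rw [EuclideanSpace.dist_eq, Real.sqrt_eq_iff_mul_self_eq (by positivity) (by positivity)]
  simp [X, Fin.sum_univ_four, Fin.sum_univ_three, Real.dist_eq]
  ring

lemma crX (hs : 0 < s) (h0 : 0 ≤ t) (h1 : t ≤ 1 / 3) :
    Circumradius (parallelepiped (X s t)) (2 * s) := by
  constructor
  · refine ⟨!₂[2 * s * t, 0, 0], ?_⟩
    rw [parallelepiped_eq_convexHull, Fin.sum_univ_four]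
    refine convexHull_min ?_ (convex_closedBall _ _)
    rintro _ ⟨_, ⟨_, ⟨_, rfl | rfl, _, rfl | rfl, rfl⟩, _, rfl | rfl, rfl⟩, _, rfl | rfl, rfl⟩ <;>
    · rw [mem_closedBall, EuclideanSpace.dist_eq, Real.sqrt_le_left (by positivity)]
      simp [X, Fin.sum_univ_three, Real.dist_eq]
      nlinarith [mul_pos hs hs, mul_nonneg h0 h0, mul_nonneg (mul_pos hs hs).le h0,
        mul_nonneg (mul_pos hs hs).le (mul_nonneg h0 (sub_nonneg.2 h1)),
        mul_nonneg (mul_pos hs hs).le (sub_nonneg.2 h1)]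
  · rintro r ⟨c, hc⟩
    obtain ⟨p, hp, p', hp', e⟩ := far (t := t) hs
    linarith [dist_triangle_right p p' c, mem_closedBall.1 (hc hp), mem_closedBall.1 (hc hp')]

lemma gram {q : Fin 4 → E} (h0 : ∑ i, q i = 0) {e : ℝ} (h : ∀ i j, i ≠ j → dist (q i) (q j) = e)
    (i j : Fin 4) : ⟪q i, q j⟫ = if i = j then 3 * e ^ 2 / 8 else -e ^ 2 / 8 := by
  have h1 (i j) (hij : i ≠ j) : ⟪q i, q i⟫ - 2 * ⟪q i, q j⟫ + ⟪q j, q j⟫ = e ^ 2 := by
    rw [← h i j hij, dist_eq_norm, ← real_inner_self_eq_norm_sq, real_inner_sub_sub_self]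
  have h2 (i) : ⟪q i, q 0⟫ + ⟪q i, q 1⟫ + ⟪q i, q 2⟫ + ⟪q i, q 3⟫ = 0 := by
    rw [← Fin.sum_univ_four fun j => ⟪q i, q j⟫, ← inner_sum, h0, inner_zero_right]
  have := h1 0 1 (by decide)
  have := h1 0 2 (by decide)
  have := h1 0 3 (by decide)
  have := h1 1 0 (by decide)
  have := h1 1 2 (by decide)
  have := h1 1 3 (by decide)
  have := h1 2 0 (by decide)
  have := h1 2 1 (by decide)
  have := h1 2 3 (by decide)
  have := h1 3 0 (by decide)
  have := h1 3 1 (by decide)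
  have := h1 3 2 (by decide)
  have := h2 0
  have := h2 1
  have := h2 2
  have := h2 3
  fin_cases i <;> fin_cases j <;> simp [-inner_self_eq_norm_sq_to_K] <;> linarith

lemma four (a b c d : ℝ) (h : a + b + c + d = 0) :
    2 * ((a + b) ^ 2 + (a + c) ^ 2 + (a + d) ^ 2) ≤ (|a| + |b| + |c| + |d|) ^ 2 := by
  have k (a b c d : ℝ) (h : a + b + c + d = 0) : 2 * a ^ 2 ≤ |a| * (|a| + |b| + |c| + |d|) := by
    have : |a| ≤ |b| + |c| + |d| := by
      rw [show a = -(b + c + d) by linarith, abs_neg]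
      exact abs_add_three _ _ _
    nlinarith [sq_abs a, mul_le_mul_of_nonneg_left this (abs_nonneg a)]
  have e : (a + b) ^ 2 + (a + c) ^ 2 + (a + d) ^ 2 = a ^ 2 + b ^ 2 + c ^ 2 + d ^ 2 := by
    linear_combination 2 * a * h
  linarith [k a b c d h, k b a c d (by linarith), k c a b d (by linarith), k d a b c (by linarith)]

lemma notreg (hs : 0 < s) (q : Fin 4 → E) (v : E) (hq : Regular q) :
    parallelepiped (X s (1 / 3)) ≠ v +ᵥ parallelepiped q := by
  obtain ⟨h0, e, he, h⟩ := hq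
  intro hZ
  have g := gram h0 h
  have h1 : 8 * s ^ 2 ≤ e ^ 2 := by
    obtain ⟨p, hp, p', hp', hd⟩ := far (t := 1 / 3) hs
    rw [hZ] at hp hp'
    obtain ⟨_, ⟨u, hu, rfl⟩, rfl⟩ := hp
    obtain ⟨_, ⟨u', hu', rfl⟩, rfl⟩ := hp'
    have : (4 * s) ^ 2 = ⟪∑ i, (u i - u' i) • q i, ∑ i, (u i - u' i) • q i⟫ := by
      rw [real_inner_self_eq_norm_sq, ← hd, dist_eq_norm]
      simp [sub_smul]
    simp only [sum_inner, inner_sum, real_inner_smul_left, real_inner_smul_right, g] at this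
    simp [Fin.sum_univ_four] at this
    have b (i) : (u i - u' i) ^ 2 ≤ 1 := by
      have := hu.1 i
      have := hu.2 i
      have := hu'.1 i
      have := hu'.2 i
      simp only [Pi.zero_apply, Pi.one_apply] at *
      nlinarith
    nlinarith [mul_nonneg (sq_nonneg e) (sq_nonneg (u 0 - u' 0 + (u 1 - u' 1) + (u 2 - u' 2) +
      (u 3 - u' 3))), mul_le_mul_of_nonneg_left (b 0) (sq_nonneg e),
      mul_le_mul_of_nonneg_left (b 1) (sq_nonneg e), mul_le_mul_of_nonneg_left (b 2) (sq_nonneg e),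
      mul_le_mul_of_nonneg_left (b 3) (sq_nonneg e)]
  let y : E := !₂[-3, 1, 3]
  have h2 (p) (hp : p ∈ parallelepiped (X s (1 / 3))) : -8 * s ≤ ⟪p, y⟫ ∧ ⟪p, y⟫ ≤ 4 * s := by
    obtain ⟨u, hu, rfl⟩ := hp
    have := mul_nonneg (hu.1 1) hs.le
    have := mul_nonneg (hu.1 3) hs.le
    have := mul_le_mul_of_nonneg_right (hu.2 1) hs.le
    have := mul_le_mul_of_nonneg_right (hu.2 3) hs.le
    simp [X, y, PiLp.inner_apply, Fin.sum_univ_four, Fin.sum_univ_three] at *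
    constructor <;> linarith
  have h3 : ∑ i, |⟪q i, y⟫| ≤ 12 * s := by
    have m (u : Fin 4 → ℝ) (hu : ∀ i, 0 ≤ u i ∧ u i ≤ 1) := h2 (v + ∑ i, u i • q i)
      (hZ ▸ ⟨_, memX u hu q, rfl⟩)
    have m1 := (m (fun i => if 0 ≤ ⟪q i, y⟫ then 1 else 0) fun i => by split_ifs <;> simp).2
    have m2 := (m (fun i => if 0 ≤ ⟪q i, y⟫ then 0 else 1) fun i => by split_ifs <;> simp).1
    simp only [inner_add_left, sum_inner, real_inner_smul_left] at m1 m2
    refine le_trans (le_of_eq ?_) (show ∑ i, (if 0 ≤ ⟪q i, y⟫ then 1 else 0) * ⟪q i, y⟫ -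
      ∑ i, (if 0 ≤ ⟪q i, y⟫ then 0 else 1) * ⟪q i, y⟫ ≤ _ by linarith)
    rw [← Finset.sum_sub_distrib]
    refine Finset.sum_congr rfl fun i _ => ?_
    split_ifs with h
    · simp [abs_of_nonneg h]
    · simp [abs_of_neg (not_le.1 h)]
  have h4 : ∑ i, ⟪q i, y⟫ = 0 := by rw [← sum_inner, h0, inner_zero_left]
  have hc : (√2 / e) * (√2 / e) * (e ^ 2 / 2) = 1 := by
    field_simp
    simp
  have on : Orthonormal ℝ fun k : Fin 3 => (√2 / e) • (q 0 + q k.succ) := by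
    refine orthonormal_iff_ite.2 fun i j => ?_
    simp only [real_inner_smul_left, real_inner_smul_right, inner_add_left, inner_add_right, g]
    fin_cases i <;> fin_cases j <;> simp <;> first | linarith | (right; ring)
  have h5 := ((basisOfOrthonormalOfCardEqFinrank on (by simp)).toOrthonormalBasis
    (by simpa using on)).sum_sq_inner_right y
  have h6 : ‖y‖ ^ 2 = 19 := by
    simp [y, EuclideanSpace.norm_sq_eq, Fin.sum_univ_three]
    norm_num
  simp only [Basis.coe_toOrthonormalBasis, coe_basisOfOrthonormalOfCardEqFinrank, h6,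
    real_inner_smul_left, inner_add_left, Fin.sum_univ_three, Fin.sum_univ_four] at h3 h4 h5
  change (_ * (_ + ⟪q 1, y⟫)) ^ 2 + (_ * (_ + ⟪q 2, y⟫)) ^ 2 + (_ * (_ + ⟪q 3, y⟫)) ^ 2 = _ at h5
  generalize ⟪q 0, y⟫ = a, ⟪q 1, y⟫ = b, ⟪q 2, y⟫ = c, ⟪q 3, y⟫ = d, √2 / e = k at *
  have h7 : (a + b) ^ 2 + (a + c) ^ 2 + (a + d) ^ 2 = 19 * (e ^ 2 / 2) := by
    linear_combination (e ^ 2 / 2) * h5 - ((a + b) ^ 2 + (a + c) ^ 2 + (a + d) ^ 2) * hc
  have h8 := four a b c d h4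
  linarith [pow_le_pow_left₀ (by positivity) h3 2, mul_pos hs hs]

theorem result : ∃ (x p : Fin 4 → E) (ρ : ℝ), Regular p ∧ volume (parallelepiped x) = 1 ∧
    volume (parallelepiped p) = 1 ∧ Circumradius (parallelepiped x) ρ ∧
    Circumradius (parallelepiped p) ρ ∧
    ∀ (q : Fin 4 → E) (v : E), Regular q → parallelepiped x ≠ v +ᵥ parallelepiped q := by
  obtain ⟨s, hs, h⟩ : ∃ s : ℝ, 0 < s ∧ s ^ 3 = 1 / 16 :=
    ⟨(1 / 16) ^ ((3 : ℕ) : ℝ)⁻¹, by positivity, Real.rpow_inv_natCast_pow (by norm_num) (by norm_num)⟩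
  refine ⟨X s (1 / 3), X s 0, 2 * s, ⟨?_, √8 * s, by positivity, fun i j hij => ?_⟩,
    by rw [volX hs (by norm_num) le_rfl, h]; norm_num,
    by rw [volX hs le_rfl (by norm_num), h]; norm_num, crX hs (by norm_num) le_rfl,
    crX hs le_rfl (by norm_num), fun q v => notreg hs q v⟩
  · ext k
    fin_cases k <;> simp [X, Fin.sum_univ_four]
  · rw [EuclideanSpace.dist_eq, Real.sqrt_eq_iff_mul_self_eq (by positivity) (by positivity),
      mul_mul_mul_comm, Real.mul_self_sqrt (by norm_num)]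
    fin_cases i <;> fin_cases j <;> simp [X, Fin.sum_univ_three, Real.dist_eq] at hij ⊢ <;> ring

end Pool.Agent.Results.MP_de3f1f_gt.NotUnique
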